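import Pool.Agent.U722.FF.Stm2
import Pool.Agent.U460.FFP.EXT
import Pool.Agent.U678.FFP.IND
import Pool.Agent.U165.FFP.PERM
import Pool.Agent.U928.FFP.EX

set_option autoImplicit false
set_option linter.unusedSectionVars false

/-!
Project FS, package LEN: lengths of resolutions for groups acting on trees. The arguments are those of
the packages CONE, IND and PERM of Project FF (`Pool.Agent.U603.FFP.CONE`, `Pool.Agent.U678.FFP.IND`,
`Pool.Agent.U165.FFP.PERM`), with the lengths kept.
-/

namespace Pool.Agent.U429.FSP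

open TH57.FF U722.FF Matrix MulAction
open Pool.Agent.U678.FFP Pool.Agent.U165.FFP.PERM
open Pool.Agent.U460.FFP (EXT_aux)

/-- cokernels, with lengths -/
theorem cone (R : Type) [Ring R] (n : ℕ) (A B C : Type) [AddCommGroup A] [Module R A]
    [AddCommGroup B] [Module R B] [AddCommGroup C] [Module R C] (f : A →ₗ[R] B) (g : B →ₗ[R] C)
    (hf : Function.Injective f) (hg : Function.Surjective g)
    (hfg : ∀ b, g b = 0 ↔ b ∈ LinearMap.range f) (hA : FR R n A) (hB : FR R (n + 1) B) :
    FR R (n + 1) C := by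
  obtain ⟨ι, i1, b, hb, hK⟩ := hB
  have hle : LinearMap.ker b ≤ LinearMap.ker (g ∘ₗ b) := by
    intro x hx
    rw [LinearMap.mem_ker] at hx ⊢
    rw [LinearMap.comp_apply, hx, map_zero]
  have hcod : ∀ x : LinearMap.ker (g ∘ₗ b), (b ∘ₗ (LinearMap.ker (g ∘ₗ b)).subtype) x ∈
      LinearMap.range f := by
    intro x
    rw [← hfg]
    exact LinearMap.mem_ker.1 x.2
  let p : LinearMap.ker (g ∘ₗ b) →ₗ[R] A :=
    (LinearEquiv.ofInjective f hf).symm.toLinearMap ∘ₗ
      LinearMap.codRestrict (LinearMap.range f) (b ∘ₗ (LinearMap.ker (g ∘ₗ b)).subtype) hcod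
  have hp : ∀ x : LinearMap.ker (g ∘ₗ b), f (p x) = b x.1 := by
    intro x
    have h1 := LinearEquiv.ofInjective_apply (f := f) (h := hf) (p x)
    rw [← h1]
    change ((LinearEquiv.ofInjective f hf) ((LinearEquiv.ofInjective f hf).symm
      (LinearMap.codRestrict (LinearMap.range f) (b ∘ₗ (LinearMap.ker (g ∘ₗ b)).subtype) hcod x)) :
      B) = _
    rw [LinearEquiv.apply_symm_apply]
    rfl
  have hps : Function.Surjective p := by
    intro a
    obtain ⟨x, hx⟩ := hb (f a)
    have hx' : x ∈ LinearMap.ker (g ∘ₗ b) := by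
      rw [LinearMap.mem_ker, LinearMap.comp_apply, hx, hfg]
      exact ⟨a, rfl⟩
    refine ⟨⟨x, hx'⟩, hf ?_⟩
    rw [hp, hx]
  have hn := EXT_aux n (LinearMap.ker b) (LinearMap.ker (g ∘ₗ b)) A (Submodule.inclusion hle) p
    (Submodule.inclusion_injective hle) hps (by
      intro x
      constructor
      · intro h
        have h1 := hp x
        rw [h, map_zero] at h1
        exact ⟨⟨x.1, LinearMap.mem_ker.2 h1.symm⟩, rfl⟩
      · rintro ⟨y, rfl⟩
        apply hf
        rw [hp, map_zero]
        exact LinearMap.mem_ker.1 y.2) hK hA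
  exact ⟨ι, i1, g ∘ₗ b, hg.comp hb, hn⟩

/-- induced modules, with lengths -/
theorem ind (n : ℕ) (G X : Type) [Group G] [MulAction G X] (x : X)
    (htr : ∀ y : X, ∃ g : G, g • x = y) (hT : TFn ↥(stabilizer G x) (n + 1)) :
    FR (MonoidAlgebra ℤ G) (n + 1) (PM G X) := by
  classical
  obtain ⟨ι, i1, e, he, h1⟩ := hT
  obtain ⟨l, i2, A, hA, hres⟩ := Res_of_FR n (LinearMap.ker e) h1
  set f : ↥(stabilizer G x) →* G := (stabilizer G x).subtype with hf
  have hfi : Function.Injective f := Subgroup.subtype_injective _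
  have hrb := RB_group f hfi
  have hmem : ∀ g : G, g ∈ f.range ↔ g • x = x := by
    intro g
    rw [hf, Subgroup.range_subtype]
    exact MulAction.mem_stabilizer_iff
  set z : ι → ℤ := fun j => co _ PUnit.unit (e (Pi.single j 1)) with hz
  have key : ∀ (g : G) (w : ι → MonoidAlgebra ℤ ↥(stabilizer G x)),
      ee x z (fun j => MonoidAlgebra.single g (1 : ℤ) * ph x (w j)) =
        co _ PUnit.unit (e w) • pt G (g • x) := by
    intro g w
    have h2 : (fun j => MonoidAlgebra.single g (1 : ℤ) * ph x (w j)) =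
        MonoidAlgebra.of ℤ G g • (fun j => ph x (w j)) := by
      funext j
      rfl
    rw [h2, map_smul, ee_ph, smul_comm, of_smul_pt]
  have hker : LinearMap.ker (ee x z) = Im (A.map (ph x)) := by
    ext v
    constructor
    · intro hv
      rw [LinearMap.mem_ker] at hv
      choose w hw using fun i => hrb.span (v i)
      set T : Finset (G ⧸ f.range) := Finset.univ.biUnion fun i => (w i).support with hT
      have h2 : v = ∑ q ∈ T, (fun j => MonoidAlgebra.single q.out (1 : ℤ) * ph x (w j q)) := by
        funext i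
        rw [Finset.sum_apply, ← hw i]
        apply Finsupp.sum_of_support_subset _ _ _ (fun s _ => by rw [map_zero, mul_zero])
        intro s hs
        exact Finset.mem_biUnion.2 ⟨i, Finset.mem_univ i, hs⟩
      have h3 : ∑ q ∈ T, co _ PUnit.unit (e (fun j => w j q)) • pt G (q.out • x) = 0 := by
        rw [← hv]
        conv_rhs => rw [h2]
        rw [map_sum]
        exact Finset.sum_congr rfl fun q _ => (key _ _).symm
      have h4 : ∀ q ∈ T, (fun j => w j q) ∈ LinearMap.ker e := by
        intro q hq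
        rw [LinearMap.mem_ker]
        apply co_inj
        have h5 := congrArg (co G (q.out • x)) h3
        rw [map_sum, map_zero, Finset.sum_eq_single q] at h5
        · rw [map_zsmul, co_pt, if_pos rfl, smul_eq_mul, mul_one] at h5
          exact h5
        · intro q' _ hq'
          rw [map_zsmul, co_pt, if_neg, smul_zero]
          intro h6
          apply hq'
          have h7 : q'.out⁻¹ * q.out ∈ f.range := by
            rw [hmem, mul_smul, ← h6, inv_smul_smul]
          have h8 : (QuotientGroup.mk q'.out : G ⧸ f.range) = QuotientGroup.mk q.out :=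
            QuotientGroup.eq.2 h7
          have e1 : (QuotientGroup.mk q'.out : G ⧸ f.range) = q' := Quotient.out_eq _
          have e2 : (QuotientGroup.mk q.out : G ⧸ f.range) = q := Quotient.out_eq _
          rw [e1, e2] at h8
          exact h8
        · intro hq2
          exact absurd hq hq2
      rw [h2]
      refine Submodule.sum_mem _ fun q hq => ?_
      have h5 := h4 q hq
      rw [← hA] at h5
      obtain ⟨y, hy⟩ := h5
      refine ⟨fun a => MonoidAlgebra.single q.out (1 : ℤ) * ph x (y a), ?_⟩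
      funext i
      rw [Matrix.vecMulLinear_apply]
      have h6 := congrFun hy i
      rw [Matrix.vecMulLinear_apply] at h6
      simp only [Matrix.vecMul, dotProduct, Matrix.map_apply] at h6 ⊢
      rw [← h6, map_sum, Finset.mul_sum]
      refine Finset.sum_congr rfl fun a _ => ?_
      rw [map_mul, mul_assoc]
    · rintro ⟨y, rfl⟩
      rw [LinearMap.mem_ker, Matrix.vecMulLinear_apply, Matrix.vecMul_eq_sum, map_sum]
      refine Finset.sum_eq_zero fun a _ => ?_
      rw [map_smul]
      have h2 : A a ∈ LinearMap.ker e := by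
        rw [← hA]
        refine ⟨Pi.single a 1, ?_⟩
        rw [Matrix.vecMulLinear_apply, Matrix.single_one_vecMul]
        rfl
      rw [LinearMap.mem_ker] at h2
      have h3 : (A.map (ph x)) a = fun j => ph x (A a j) := rfl
      rw [h3, ee_ph, h2, map_zero, zero_smul, smul_zero]
  have hsurj : Function.Surjective (ee (G := G) x z) := by
    obtain ⟨w, hw⟩ := he (pt _ PUnit.unit)
    have h2 : ∀ y : X, pt G y ∈ LinearMap.range (ee (G := G) x z) := by
      intro y
      obtain ⟨g, rfl⟩ := htr y
      refine ⟨_, (key g w).trans ?_⟩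
      rw [hw, co_pt, if_pos rfl, one_smul]
    intro m
    rw [← LinearMap.mem_range]
    induction m using PM_induction with
    | h0 => exact Submodule.zero_mem _
    | h1 y => exact h2 y
    | h2 a b ha hb => exact Submodule.add_mem _ ha hb
    | h3 a ha => exact Submodule.neg_mem _ ha
  refine ⟨ι, i1, ee x z, hsurj, ?_⟩
  rw [hker]
  exact FR_of_Res n _ (Res_map _ _ _ hrb n A hres)

section seq

variable {G X : Type} [Group G] [MulAction G X]

open Classical in
theorem seqn (n : ℕ) (P Q : X → Prop) (hPQ : ∀ x, Q x ↔ ¬ P x)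
    (hP : ∀ (g : G) x, P x → P (g • x))
    (hP' : ∀ (g : G) x, Q x → Q (g • x))
    (h1 : letI := sact P hP; FR (MonoidAlgebra ℤ G) n (PM G (Sb P)))
    (h2 : letI := sact Q hP'; FR (MonoidAlgebra ℤ G) n (PM G (Sb Q))) :
    FR (MonoidAlgebra ℤ G) n (PM G X) := by
  let i1 := sact P hP
  let i2 := sact Q hP'
  have hs1 : ∀ (g : G) (y : Sb P), (g • y).v = g • y.v := fun g y => rfl
  have hs2 : ∀ (g : G) (y : Sb Q), (g • y).v = g • y.v := fun g y => rfl
  -- the maps
  let f : PM G (Sb P) →ₗ[MonoidAlgebra ℤ G] PM G X :=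
    PMlift (fun y => pt G y.v) (by intro g y; rw [of_smul_pt, hs1])
  let F : X → PM G (Sb Q) := fun x => if h : Q x then pt G (Sb.mk x h) else 0
  have hF1 : ∀ (x : X) (h : Q x), F x = pt G (Sb.mk x h) := fun x h => dif_pos h
  have hF2 : ∀ (x : X), ¬ Q x → F x = 0 := fun x h => dif_neg h
  have hg : ∀ (g : G) (x : X), F (g • x) = MonoidAlgebra.of ℤ G g • F x := by
    intro g x
    by_cases h : Q x
    · rw [hF1 x h, hF1 _ (hP' g x h), of_smul_pt]
      rfl
    · have h' : ¬ Q (g • x) := by
        rw [hPQ, not_not] at h ⊢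
        exact hP g x h
      rw [hF2 _ h, hF2 _ h', smul_zero]
  let gg : PM G X →ₗ[MonoidAlgebra ℤ G] PM G (Sb Q) := PMlift F hg
  let r : PM G X →+ PM G (Sb P) :=
    PMadd G (fun x => if h : P x then pt G (Sb.mk x h) else 0)
  let s : PM G (Sb Q) →+ PM G X := PMadd G (fun y => pt G y.v)
  have hf : ∀ y, f (pt G y) = pt G y.v := fun y => PMlift_pt _ _ y
  have hg1 : ∀ x, P x → gg (pt G x) = 0 := by
    intro x h
    have h' : ¬ Q x := by
      rw [hPQ, not_not]
      exact h
    exact (PMlift_pt F hg x).trans (hF2 x h')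
  have hg2 : ∀ (x : X) (h : Q x), gg (pt G x) = pt G (Sb.mk x h) := by
    intro x h
    exact (PMlift_pt F hg x).trans (hF1 x h)
  have hr1 : ∀ (x : X) (h : P x), r (pt G x) = pt G (Sb.mk x h) := by
    intro x h
    have := PMadd_pt (G := G) (fun x => if h : P x then pt G (Sb.mk x h) else 0) x
    rw [dif_pos h] at this
    exact this
  have hr2 : ∀ (x : X), Q x → r (pt G x) = 0 := by
    intro x h
    have h' : ¬ P x := (hPQ x).1 h
    have := PMadd_pt (G := G) (fun x => if h : P x then pt G (Sb.mk x h) else 0) x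
    rw [dif_neg h'] at this
    exact this
  have hs : ∀ y, s (pt G y) = pt G y.v := fun y => PMadd_pt _ y
  have e1 : ∀ a, r (f a) = a := by
    intro a
    induction a using PM_induction with
    | h0 => rw [map_zero, map_zero]
    | h1 y => rw [hf, hr1 y.v y.p]
    | h2 a b ha hb => rw [map_add, map_add, ha, hb]
    | h3 a ha => rw [map_neg, map_neg, ha]
  have e2 : ∀ a, gg (s a) = a := by
    intro a
    induction a using PM_induction with
    | h0 => rw [map_zero, map_zero]
    | h1 y => rw [hs, hg2 y.v y.p]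
    | h2 a b ha hb => rw [map_add, map_add, ha, hb]
    | h3 a ha => rw [map_neg, map_neg, ha]
  have e3 : ∀ a, gg (f a) = 0 := by
    intro a
    induction a using PM_induction with
    | h0 => rw [map_zero, map_zero]
    | h1 y => rw [hf, hg1 y.v y.p]
    | h2 a b ha hb => rw [map_add, map_add, ha, hb, add_zero]
    | h3 a ha => rw [map_neg, map_neg, ha, neg_zero]
  have e4 : ∀ b, f (r b) + s (gg b) = b := by
    intro b
    induction b using PM_induction with
    | h0 => rw [map_zero, map_zero, map_zero, map_zero, add_zero]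
    | h1 x =>
      by_cases h : P x
      · rw [hr1 x h, hf, hg1 x h, map_zero, add_zero]
      · have h' : Q x := (hPQ x).2 h
        rw [hr2 x h', map_zero, hg2 x h', hs, zero_add]
    | h2 a b ha hb =>
      rw [map_add, map_add, map_add, map_add]
      calc f (r a) + f (r b) + (s (gg a) + s (gg b))
          = (f (r a) + s (gg a)) + (f (r b) + s (gg b)) := by abel
        _ = a + b := by rw [ha, hb]
    | h3 a ha =>
      rw [map_neg, map_neg, map_neg, map_neg]
      calc -f (r a) + -s (gg a) = -(f (r a) + s (gg a)) := by abel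
        _ = -a := by rw [ha]
  refine EXT_aux n _ _ _ f gg ?_ ?_ ?_ h1 h2
  · intro a b hab
    rw [← e1 a, ← e1 b, hab]
  · intro c
    exact ⟨s c, e2 c⟩
  · intro b
    constructor
    · intro hb
      refine ⟨r b, ?_⟩
      have := e4 b
      rw [hb, map_zero, add_zero] at this
      exact this
    · rintro ⟨a, rfl⟩
      exact e3 a

theorem stab_eqn (n : ℕ) (P : X → Prop) (hP : ∀ (g : G) x, P x → P (g • x)) (y : Sb P)
    (h : TFn ↥(stabilizer G y.v) n) : letI := sact P hP; TFn ↥(stabilizer G y) n := by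
  let i1 := sact P hP
  have h1 : stabilizer G y = stabilizer G y.v := by
    ext g
    rw [mem_stabilizer_iff, mem_stabilizer_iff]
    exact Sb.ext_iff
  rw [h1]
  exact h

end seq

/-- permutation modules, with lengths -/
theorem perm (k : ℕ) (G : Type) [Group G] : ∀ (n : ℕ) (X : Type) [MulAction G X],
    (∃ S : Finset X, S.card ≤ n ∧ ∀ y : X, ∃ g : G, ∃ x ∈ S, g • x = y) →
    (∀ x : X, TFn ↥(stabilizer G x) (k + 1)) → FR (MonoidAlgebra ℤ G) (k + 1) (PM G X) := by
  classical
  intro n
  induction n with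
  | zero =>
    intro X _ hS _
    obtain ⟨S, hS, h⟩ := hS
    have hS' : S = ∅ := Finset.card_eq_zero.1 (by omega)
    have : IsEmpty X := ⟨fun y => by
      obtain ⟨g, x, hx, _⟩ := h y
      rw [hS'] at hx
      exact absurd hx (Finset.notMem_empty x)⟩
    have : Subsingleton (PM G X) := inferInstanceAs (Subsingleton (X →₀ ℤ))
    have h0 : FR (MonoidAlgebra ℤ G) 0 (PM G X) := ⟨inferInstance, inferInstance⟩
    exact Pool.Agent.U460.FFP.FR_mono_le (Nat.zero_le _) _ h0
  | succ n ih =>
    intro X _ hS hst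
    obtain ⟨S, hS, h⟩ := hS
    rcases S.eq_empty_or_nonempty with hS' | ⟨x₀, hx₀⟩
    · exact ih X ⟨S, by rw [hS']; simp, h⟩ hst
    · let P : X → Prop := fun x => ∃ g : G, g • x₀ = x
      let Q : X → Prop := fun x => ¬ P x
      have hP : ∀ (g : G) x, P x → P (g • x) := by
        rintro g x ⟨l, rfl⟩
        exact ⟨g * l, mul_smul g l x₀⟩
      have hP' : ∀ (g : G) x, Q x → Q (g • x) := by
        intro g x hx hgx
        apply hx
        have := hP g⁻¹ _ hgx
        rwa [inv_smul_smul] at this
      refine seqn (k + 1) P Q (fun x => Iff.rfl) hP hP' ?_ ?_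
      · let i1 := sact P hP
        refine ind k G (Sb P) ⟨x₀, 1, one_smul G x₀⟩ ?_ ?_
        · rintro ⟨y, l, rfl⟩
          exact ⟨l, rfl⟩
        · exact stab_eqn (k + 1) P hP _ (hst _)
      · let i2 := sact Q hP'
        refine ih (Sb Q) ?_ ?_
        · refine ⟨((S.erase x₀).subtype Q).image (fun z => Sb.mk z.1 z.2), ?_, ?_⟩
          · refine Finset.card_image_le.trans ?_
            rw [Finset.card_subtype]
            refine (Finset.card_filter_le _ _).trans ?_
            rw [Finset.card_erase_of_mem hx₀]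
            omega
          · rintro ⟨y, hy⟩
            obtain ⟨g, x, hx, hxy⟩ := h y
            have hx' : Q x := by
              intro hx'
              apply hy
              rw [← hxy]
              exact hP g x hx'
            refine ⟨g, Sb.mk x hx', ?_, Sb.ext hxy⟩
            rw [Finset.mem_image]
            refine ⟨⟨x, hx'⟩, ?_, rfl⟩
            rw [Finset.mem_subtype]
            refine Finset.mem_erase.2 ⟨?_, hx⟩
            intro hxx
            apply hx'
            exact ⟨1, by rw [one_smul]; exact hxx.symm⟩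
        · intro y
          exact stab_eqn (k + 1) Q hP' y (hst _)

theorem t_LEN : S_LEN := by
  intro G _ h
  obtain ⟨V, E, iV, iE, T, s, t, hT, hO, hV, hE, hP, hQ⟩ := h
  obtain ⟨f, g, hf, hg, hfg⟩ := Pool.Agent.U928.FFP.t_EX G V E T s t hT hO
  obtain ⟨SV, hSV⟩ := hV
  obtain ⟨SE, hSE⟩ := hE
  have h1 : FR (MonoidAlgebra ℤ G) 1 (PM G V) := perm 0 G SV.card V ⟨SV, le_rfl, hSV⟩ hP
  have h2 : FR (MonoidAlgebra ℤ G) 1 (PM G E) := perm 0 G SE.card E ⟨SE, le_rfl, hSE⟩ hQ
  exact cone (MonoidAlgebra ℤ G) 1 _ _ _ f g hf hg hfg h2 (Pool.Agent.U460.FFP.FR_mono 1 _ h1)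

end Pool.Agent.U429.FSP
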